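import Pool.Agent.Helper960.Rou.Fin2

open MeasureTheory
open scoped ContDiff

namespace Pool.Agent.Results.MP_34023b_an.Main

open Pool.Agent.Helper960.Rou

/-- **The rough property fails in `L^1` for `s = p`.** For every `n ≥ 2`, every `p ≥ 1` and every
homogeneous elliptic operator `P = ∑_a c_a ∂_{a_1} ⋯ ∂_{a_p}` of order `p` with constant complex
coefficients on `ℝⁿ` there is a compact set `K` for which the closure of `S(K)` in `W^{p,1}(K)` does
not contain `R^p(K)`; in particular `K` does not have the rough property. -/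
theorem result (n p : ℕ) (hn : 2 ≤ n) (hp : 1 ≤ p) (c : (Fin p → Fin n) → ℂ) (hc : Elliptic c) :
    ∃ K : Set (Rn n), IsCompact K ∧ ¬ RoughProperty c p K ∧
      ∃ r ∈ RK c p K, r ∉ closure (SK c p K) := by
  obtain ⟨m, rfl⟩ : ∃ m, n = m + 2 := ⟨n - 2, by omega⟩
  obtain ⟨q, rfl⟩ : ∃ q, p = q + 1 := ⟨p - 1, by omega⟩
  obtain ⟨K, hK, r, hr, hr2⟩ := final c hc
  refine ⟨K, hK, ?_, r, hr, hr2⟩
  intro h
  unfold RoughProperty at h
  rw [h] at hr2
  exact hr2 hr

end Pool.Agent.Results.MP_34023b_an.Main
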